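import Pool.Agent.H41.TF.Final

/-!
# Every 4-connected toroidal graph has a 2-factor  (MP_d78700_co)

The theorem covers all embedding schemes (rotation systems with twisted or untwisted edges) of non-negative Euler
characteristic `V - E + F`, so in particular all graphs embedded in the torus and hence the 1-skeletons of all toroidal
polyhedra, and all graphs embedded in the Klein bottle.
-/

set_option autoImplicit false

namespace Pool.Agent.Results.MP_d78700_co.TwoFactor

open Pool.Agent.H41.TF

/-- Let `G` be a finite 4-connected graph with an embedding scheme whose Euler characteristic `V - E + F` is at least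
`0`.  Then `G` has a 2-factor: a spanning subgraph in which every vertex has exactly two neighbours. -/
theorem result {V : Type} [Finite V] (G : SimpleGraph V) (h4 : FourConn G) (S : Scheme G)
    (hχ : Nat.card G.edgeSet ≤ Nat.card V + Nat.card S.Face) :
    ∃ F : SimpleGraph V, F ≤ G ∧ ∀ v, (F.neighborSet v).ncard = 2 := by
  classical
  have := Fintype.ofFinite V
  exact two_factor h4 S hχ

end Pool.Agent.Results.MP_d78700_co.TwoFactor
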